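import Mathlib

set_option autoImplicit false

/-! # Project PW (helper307): small prime values of `N + m ^ d` — statements of the tasks -/

namespace Pool.Agent.H307R2.PW

open Finset

open scoped Classical

/-- number of solutions of `x ^ d = 1` modulo the prime `p` -/
def gp (d p : ℕ) : ℕ := Nat.gcd d (p - 1)

/-- Task T2: greedy choice of residue classes (class `-a p` for the powers) -/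
def GreedyStmt : Prop := ∀ d : ℕ, 1 ≤ d → ∀ S : Finset ℕ, (∀ p ∈ S, p.Prime) → ∀ R : Finset ℤ,
  ∃ a : ℕ → ℤ, ((R.filter (fun m => ∀ p ∈ S, ¬ (p : ℤ) ∣ a p + m ^ d)).card : ℝ) ≤
    R.card * ∏ p ∈ S, (1 - (gp d p : ℝ) / ((gp d p : ℝ) + (p : ℝ) - 1))

/-- Task T3: Mertens -/
def ProdStmt : Prop := ∀ d : ℕ, 1 ≤ d → ∃ C : ℝ, 0 < C ∧ ∀ v₀ v : ℝ, 3 ≤ v₀ → v₀ ≤ v →
  ∀ S : Finset ℕ, (∀ p : ℕ, p ∈ S ↔ p.Prime ∧ v₀ < (p : ℝ) ∧ (p : ℝ) ≤ v) →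
    ∏ p ∈ S, (1 - (gp d p : ℝ) / ((gp d p : ℝ) + (p : ℝ) - 1)) ≤
      C * (Real.log v₀ / Real.log v) ^ (d.divisors.card)

/-- Task T4: Rankin's choice; few survivors -/
def SurvStmt : Prop := ∀ d : ℕ, 1 ≤ d → ∃ C : ℝ, 0 < C ∧ ∃ y₀ : ℝ, ∀ y : ℝ, y₀ ≤ y →
  ∀ L : ℕ, y ≤ L → (L : ℝ) ≤ y * (Real.log y) ^ (d.divisors.card + 2) →
    ∃ a : ℕ → ℤ, a 2 = 0 ∧
      (((Finset.Icc (-(L : ℤ)) (L : ℤ)).filter (fun m => ∀ p : ℕ, p.Prime → (p : ℝ) ≤ y →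
        ¬ (p : ℤ) ∣ a p + m ^ d)).card : ℝ) ≤
      C * L * (Real.log (Real.log y)) ^ (2 * d.divisors.card) /
        ((Real.log y) ^ (d.divisors.card + 1) *
          (Real.log (Real.log (Real.log y))) ^ (d.divisors.card))

/-- Task T1: the covering theorem of helper256 with a general exponent -/
def CovA (A : ℕ) : Prop := ∃ c : ℝ, 0 < c ∧ ∃ X₀ : ℝ, ∀ X : ℝ, X₀ ≤ X →
    ∀ (κ : Type) [Fintype κ] [DecidableEq κ], (Fintype.card κ : ℝ) ≤ c * Real.log X →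
    ∀ (res : ℕ → κ → ℤ),
    (∀ p : ℕ, p.Prime → (Real.log X) ^ A < p → (p : ℝ) ≤ X ^ (1 / 10 : ℝ) →
      ∀ k l, k ≠ l → ¬ ((p : ℤ) ∣ res p k - res p l)) →
    ∀ (𝒜 : Finset ℤ) (N Err : ℝ), X ^ (1 / 2 : ℝ) ≤ N → 0 ≤ Err → Err ≤ X ^ (1 / 10 : ℝ) →
    (∀ q : ℕ, Squarefree q → (q : ℝ) ≤ X ^ (1 / 4 : ℝ) →
      (∀ p ∈ q.primeFactors, (Real.log X) ^ A < p) →
      ∀ r : ℤ, |((𝒜.filter (fun x => (q : ℤ) ∣ x - r)).card : ℝ) - N / q| ≤ Err) →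
    ∃ x ∈ 𝒜, ∀ k : κ, ∃ p : ℕ, p.Prime ∧ (Real.log X) ^ A < p ∧ (p : ℝ) ≤ X ^ (1 / 10 : ℝ) ∧
      (p : ℤ) ∣ x - res p k

/-- Task T5: arbitrary small sets of shifts are killed in a prescribed residue class -/
def KillStmt (A : ℕ) : Prop := ∃ c : ℝ, 0 < c ∧ ∃ X₀ : ℝ, ∀ X : ℝ, X₀ ≤ X →
    ∀ M : ℕ, ∀ Q : ℕ, 0 < Q → (Q : ℝ) ≤ X ^ (1 / 2 : ℝ) →
    (∀ p : ℕ, p.Prime → p ∣ Q → (p : ℝ) ≤ (Real.log X) ^ A) →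
    ∀ N₀ : ℤ, ∀ U : Finset ℤ, (U.card : ℝ) ≤ c * Real.log X →
    (∀ u ∈ U, ∀ u' ∈ U, |((u - u' : ℤ) : ℝ)| ≤ (Real.log X) ^ A) →
    ∃ N : ℤ, (M : ℝ) < N ∧ (N : ℝ) ≤ M + X ∧ (Q : ℤ) ∣ N - N₀ ∧
      ∀ u ∈ U, ∃ p : ℕ, p.Prime ∧ (Real.log X) ^ A < p ∧ (p : ℝ) ≤ X ^ (1 / 10 : ℝ) ∧
        (p : ℤ) ∣ N + u

end Pool.Agent.H307R2.PW
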