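import Pool.Agent.H307R2.PW.T6
import Pool.Agent.H307R2.PW.Defs
import Pool.Agent.H256R2.SC.V1

set_option autoImplicit false

/-! # Final assembly -/

namespace Pool.Agent.H307R2.PW

open Finset Filter Pool.Agent.H256R2.SC

open scoped Classical

/-- Chinese remainder theorem: `N₀ = 2 mod 4`, `N₀ = a p mod p` for the odd primes `p ≤ n` -/
theorem crt4 (n : ℕ) (a : ℕ → ℤ) : ∃ N₀ : ℤ, (4 : ℤ) ∣ N₀ - 2 ∧
    ∀ p : ℕ, p.Prime → p ≠ 2 → p ≤ n → (p : ℤ) ∣ N₀ - a p := by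
  obtain ⟨r, hr⟩ := crt_int (insert 2 ((Finset.range (n + 1)).filter Nat.Prime))
    (fun p : ℕ => if p = 2 then (4 : ℤ) else (p : ℤ)) (by
      have key : ∀ i j : ℕ, i.Prime → j.Prime → i ≠ j → IsCoprime (i : ℤ) (j : ℤ) :=
        fun i j hi hj hij => Nat.isCoprime_iff_coprime.2 ((Nat.coprime_primes hi hj).2 hij)
      have h4 : ∀ j : ℕ, j.Prime → j ≠ 2 → IsCoprime (4 : ℤ) (j : ℤ) := by
        intro j hj h
        have h1 := key 2 j Nat.prime_two hj (Ne.symm h)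
        have h2 : (4 : ℤ) = ((2 : ℕ) : ℤ) ^ 2 := by norm_num
        rw [h2]
        exact h1.pow_left
      intro i hi j hj hij
      have hi' : i.Prime := by
        rcases Finset.mem_insert.1 hi with rfl | h
        · exact Nat.prime_two
        · exact (Finset.mem_filter.1 h).2
      have hj' : j.Prime := by
        rcases Finset.mem_insert.1 hj with rfl | h
        · exact Nat.prime_two
        · exact (Finset.mem_filter.1 h).2
      by_cases h2 : i = 2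
      · subst h2
        simp only [if_true, if_neg (Ne.symm hij)]
        exact h4 j hj' (Ne.symm hij)
      · by_cases h3 : j = 2
        · subst h3
          simp only [if_true, if_neg h2]
          exact (h4 i hi' h2).symm
        · simp only [if_neg h2, if_neg h3]
          exact key i j hi' hj' hij)
    (fun p : ℕ => if p = 2 then (2 : ℤ) else a p)
  refine ⟨r, ?_, ?_⟩
  · have := hr 2 (Finset.mem_insert_self _ _)
    simpa using this
  · intro p hp hp2 hpn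
    have := hr p (Finset.mem_insert_of_mem (Finset.mem_filter.2 ⟨Finset.mem_range.2 (by omega), hp⟩))
    simpa [hp2] using this

theorem final (d : ℕ) (hd : 1 ≤ d) (hkill : KillStmt (2 * d + 1)) (hsurv : SurvStmt) :
    ∃ c : ℝ, 0 < c ∧ ∃ X₀ : ℝ, ∀ X : ℝ, X₀ ≤ X → ∀ M : ℕ, X ≤ M →
    ∃ N : ℕ, (M : ℝ) < N ∧ (N : ℝ) ≤ M + X ∧ N % 4 = 2 ∧
      ∀ m : ℤ, |(m : ℝ)| ≤ c * FF d X → ∃ p : ℕ, p.Prime ∧ (p : ℝ) ≤ X ^ (1 / 10 : ℝ) ∧
        (p : ℤ) ∣ (N : ℤ) + m ^ d ∧ (p : ℤ) < (N : ℤ) + m ^ d := by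
  obtain ⟨c₁, hc₁, X₁, hX₁⟩ := hkill
  obtain ⟨C, hC, y₀, hy₀⟩ := hsurv d hd
  obtain ⟨c, hc, X₂, hX₂⟩ := ana d hd (y₀ := y₀) hc₁ hC
  refine ⟨c, hc, max X₁ X₂, fun X hX M hM => ?_⟩
  obtain ⟨a1, a2, a3, a4, a5, a6, a7, a8, a9, a10, a11⟩ :=
    hX₂ X ((le_max_right _ _).trans hX) _ _ rfl rfl _ rfl
  set y : ℝ := Real.log X / 10 with hy
  set L : ℕ := ⌊c * FF d X⌋₊ with hL
  have hy0 : 0 ≤ y := by linarith
  obtain ⟨a, ha2, hU⟩ := hy₀ y a2 L a4 a5
  set S := (Finset.Icc (-(L : ℤ)) (L : ℤ)).filter (fun m => ∀ p : ℕ, p.Prime → (p : ℝ) ≤ y →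
        ¬ (p : ℤ) ∣ a p + m ^ d) with hS
  obtain ⟨N₀, hN4, hNp⟩ := crt4 ⌊y⌋₊ a
  set Q : ℕ := 2 * primorial ⌊y⌋₊ with hQ
  have hQ0 : 0 < Q := by
    have := primorial_pos ⌊y⌋₊
    omega
  have hfloor : ∀ p : ℕ, p ≤ ⌊y⌋₊ ↔ (p : ℝ) ≤ y := fun p => Nat.le_floor_iff hy0
  have hpow : ∀ m : ℤ, |(m : ℝ)| ≤ L → |((m ^ d : ℤ) : ℝ)| ≤ (L : ℝ) ^ d := by
    intro m hm
    push_cast
    rw [abs_pow]
    exact pow_le_pow_left₀ (abs_nonneg _) hm d
  have hSabs : ∀ m ∈ S, |(m : ℝ)| ≤ L := by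
    intro m hm
    have h1 := Finset.mem_Icc.1 (Finset.mem_filter.1 hm).1
    rw [abs_le]
    constructor
    · have : ((-(L : ℤ) : ℤ) : ℝ) ≤ (m : ℝ) := by exact_mod_cast h1.1
      push_cast at this
      exact this
    · exact_mod_cast h1.2
  obtain ⟨N, hN1, hN2, hN3, hN5⟩ := hX₁ X ((le_max_left _ _).trans hX) M Q hQ0
    (by rw [hQ]; push_cast; exact a7)
    (by
      intro p hp hpQ
      have h1 : (p : ℝ) ≤ y := by
        rcases (hp.dvd_mul).1 hpQ with h | h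
        · have : p ≤ 2 := Nat.le_of_dvd (by norm_num) h
          have h2 : (p : ℝ) ≤ 2 := by exact_mod_cast this
          linarith
        · exact (hfloor p).1 ((hp.dvd_primorial_iff).1 h)
      linarith)
    N₀ (S.image (fun m => m ^ d))
    (by
      refine le_trans ?_ (hU.trans a6)
      exact_mod_cast Finset.card_image_le)
    (by
      intro u hu u' hu'
      obtain ⟨m, hm, rfl⟩ := Finset.mem_image.1 hu
      obtain ⟨m', hm', rfl⟩ := Finset.mem_image.1 hu'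
      have h1 := hpow m (hSabs m hm)
      have h2 := hpow m' (hSabs m' hm')
      rw [Int.cast_sub]
      have h3 := abs_sub ((m ^ d : ℤ) : ℝ) ((m' ^ d : ℤ) : ℝ)
      linarith)
  have hNpos : 0 < N := by
    have h1 : (0 : ℝ) ≤ M := by positivity
    have : (0 : ℝ) < N := by linarith
    exact_mod_cast this
  obtain ⟨N', rfl⟩ := Int.eq_ofNat_of_zero_le hNpos.le
  have hN1' : (M : ℝ) < (N' : ℝ) := by exact_mod_cast hN1
  have hN2' : (N' : ℝ) ≤ M + X := by exact_mod_cast hN2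
  have h2prim : 2 ∣ primorial ⌊y⌋₊ := by
    rw [Nat.prime_two.dvd_primorial_iff, hfloor]
    push_cast
    linarith
  have h4N : (4 : ℤ) ∣ (N' : ℤ) - 2 := by
    have h1 : (4 : ℤ) ∣ (Q : ℤ) := by
      obtain ⟨k, hk⟩ := h2prim
      refine ⟨k, ?_⟩
      rw [hQ, hk]
      push_cast
      ring
    have h2 := dvd_add (h1.trans hN3) hN4
    have h3 : (N' : ℤ) - N₀ + (N₀ - 2) = (N' : ℤ) - 2 := by ring
    rwa [h3] at h2
  refine ⟨N', hN1', hN2', by omega, ?_⟩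
  intro m hm
  have hmL : |m| ≤ (L : ℤ) := by
    have h1 : (m.natAbs : ℝ) ≤ c * FF d X := by
      rw [Nat.cast_natAbs, Int.cast_abs]
      exact hm
    have h2 : m.natAbs ≤ L := Nat.le_floor h1
    rw [Int.abs_eq_natAbs]
    exact_mod_cast h2
  have hmLr : |(m : ℝ)| ≤ L := by
    rw [← Int.cast_abs]
    exact_mod_cast hmL
  have hlow : ∀ p : ℕ, (p : ℝ) ≤ X ^ (1 / 10 : ℝ) → (p : ℤ) < (N' : ℤ) + m ^ d := by
    intro p hp
    have h1 := (abs_le.1 (hpow m hmLr)).1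
    have h2 : ((p : ℤ) : ℝ) < (((N' : ℤ) + m ^ d : ℤ) : ℝ) := by
      rw [Int.cast_add]
      push_cast at h1 ⊢
      linarith
    exact_mod_cast h2
  by_cases hmS : m ∈ S
  · obtain ⟨p, hp, -, hp2, hp3⟩ := hN5 (m ^ d) (Finset.mem_image_of_mem _ hmS)
    exact ⟨p, hp, hp2, hp3, hlow p hp2⟩
  · have h1 : ¬ ∀ p : ℕ, p.Prime → (p : ℝ) ≤ y → ¬ (p : ℤ) ∣ a p + m ^ d := fun h =>
      hmS (Finset.mem_filter.2 ⟨Finset.mem_Icc.2 (abs_le.1 hmL), h⟩)
    push Not at h1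
    obtain ⟨p, hp, hpy, hpm⟩ := h1
    have hpX : (p : ℝ) ≤ X ^ (1 / 10 : ℝ) := hpy.trans a10
    refine ⟨p, hp, hpX, ?_, hlow p hpX⟩
    by_cases hp2 : p = 2
    · subst hp2
      rw [ha2, zero_add] at hpm
      have h2 : ((2 : ℕ) : ℤ) ∣ (N' : ℤ) := by
        push_cast
        omega
      exact dvd_add h2 hpm
    · have h2 : (p : ℤ) ∣ (N' : ℤ) - N₀ := by
        refine dvd_trans ?_ hN3
        have h3 : p ∣ Q := (hp.dvd_primorial_iff.2 ((hfloor p).2 hpy)).mul_left 2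
        exact_mod_cast h3
      have h3 := hNp p hp hp2 ((hfloor p).2 hpy)
      have h4 := dvd_add (dvd_add h2 h3) hpm
      have h5 : (N' : ℤ) - N₀ + (N₀ - a p) + (a p + m ^ d) = (N' : ℤ) + m ^ d := by ring
      rwa [h5] at h4

end Pool.Agent.H307R2.PW
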