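import Mathlib

set_option autoImplicit false

namespace Pool.Agent.H307R2.PW

theorem pc_card (n : ℕ) :
    Nat.primeCounting n = ((Finset.range (n + 1)).filter Nat.Prime).card := by
  unfold Nat.primeCounting Nat.primeCounting'
  rw [Nat.count_eq_card_filter_range]

theorem pc_lt {p q : ℕ} (hq : q.Prime) (h : p < q) :
    Nat.primeCounting p < Nat.primeCounting q := by
  unfold Nat.primeCounting Nat.primeCounting'
  rw [Nat.count_succ Nat.Prime q, if_pos hq]
  exact Nat.lt_succ_of_le (Nat.count_monotone _ h)

theorem gp_one_eq (p : ℕ) : Nat.gcd 1 (p - 1) = 1 := Nat.gcd_one_left _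

end Pool.Agent.H307R2.PW
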