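import Pool.Agent.H307R2.PW.Fin
import Pool.Agent.H307R2.PW.PIP0

set_option autoImplicit false

/-! # Prime-indexed primes as Goldbach summands -/

namespace Pool.Agent.H307R2.PW

open Finset Filter Pool.Agent.H256R2.SC

open scoped Classical

theorem pi_up (x : ℝ) (hx : 1 < x) : (Nat.primeCounting ⌊x⌋₊ : ℝ) ≤ 4 * x / Real.log x := by
  have h := Chebyshev.pi_le_log4_mul_div hx
  have hl : 0 < Real.log x := Real.log_pos hx
  have h1 : Real.log (√x) = Real.log x / 2 := by rw [Real.log_sqrt (by linarith)]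
  rw [h1] at h
  have h4 : Real.log 4 ≤ 1.4 := by
    have : (4:ℝ) = 2 ^ 2 := by norm_num
    rw [this, Real.log_pow]
    have := Real.log_two_lt_d9
    push_cast
    linarith
  have hs : 0 < √x := Real.sqrt_pos.2 (by linarith)
  have hsx : √x * √x = x := Real.mul_self_sqrt (by linarith)
  have h5 : Real.log x / 2 ≤ √x / 2 := by
    rw [← h1]
    have h6 : Real.log (√x) = 2 * Real.log (√(√x)) := by
      rw [Real.log_sqrt hs.le]; ring
    have h7 : Real.log (√(√x)) ≤ √(√x) - 1 := Real.log_le_sub_one_of_pos (Real.sqrt_pos.2 hs)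
    have h8 : √(√x) * √(√x) = √x := Real.mul_self_sqrt hs.le
    nlinarith [sq_nonneg (√(√x) - 2)]
  have h9 : √x ≤ x / Real.log x := by
    rw [le_div_iff₀ hl]
    nlinarith
  calc (Nat.primeCounting ⌊x⌋₊ : ℝ) ≤ Real.log 4 * x / (Real.log x / 2) + √x := h
    _ ≤ 1.4 * x / (Real.log x / 2) + x / Real.log x := by gcongr
    _ = 3.8 * x / Real.log x := by field_simp; ring
    _ ≤ 4 * x / Real.log x := by gcongr; norm_num


theorem pip_count (n : ℕ) :
    ((Finset.range (n + 1)).filter (fun p => p.Prime ∧ (Nat.primeCounting p).Prime)).card ≤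
      Nat.primeCounting (Nat.primeCounting n) := by
  rw [pc_card (Nat.primeCounting n)]
  apply Finset.card_le_card_of_injOn Nat.primeCounting
  · intro p hp
    have hp' := Finset.mem_filter.1 (Finset.mem_coe.1 hp)
    refine Finset.mem_coe.2 (Finset.mem_filter.2 ⟨Finset.mem_range.2 ?_, hp'.2.2⟩)
    exact Nat.lt_succ_of_le (Nat.monotone_primeCounting
      (Nat.lt_succ_iff.1 (Finset.mem_range.1 hp'.1)))
  · intro p hp q hq h
    have hp' := (Finset.mem_filter.1 (Finset.mem_coe.1 hp)).2.1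
    have hq' := (Finset.mem_filter.1 (Finset.mem_coe.1 hq)).2.1
    rcases lt_trichotomy p q with h1 | h1 | h1
    · have := pc_lt hq' h1
      omega
    · exact h1
    · have := pc_lt hp' h1
      omega

theorem pip_bound (H L2 : ℝ) (hH1 : 1 < H) (hL2 : 1 ≤ L2) (hH : L2 ≤ Real.log H) :
    (((Finset.range (⌊H⌋₊ + 1)).filter
      (fun p => p.Prime ∧ (Nat.primeCounting p).Prime)).card : ℝ) ≤ 32 * H / L2 ^ 2 := by
  have hl0 : 0 < Real.log H := by linarith
  have hs : 1 < √H := by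
    rw [Real.lt_sqrt (by norm_num)]
    linarith
  have hsx : √H * √H = H := Real.mul_self_sqrt (by linarith)
  have hl : Real.log H ≤ 2 * √H := by
    have h1 : Real.log (√H) = Real.log H / 2 := by rw [Real.log_sqrt (by linarith)]
    have h2 : Real.log (√H) ≤ √H - 1 := Real.log_le_sub_one_of_pos (by linarith)
    linarith
  set Y : ℝ := 4 * H / Real.log H with hY
  have hYs : √H ≤ Y := by
    rw [hY, le_div_iff₀ hl0]
    nlinarith
  have hY1 : 1 < Y := by linarith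
  have hlY : L2 / 2 ≤ Real.log Y := by
    have h1 : Real.log (√H) = Real.log H / 2 := by rw [Real.log_sqrt (by linarith)]
    have h2 : Real.log (√H) ≤ Real.log Y := Real.log_le_log (by linarith) hYs
    linarith
  have h1 := pi_up H hH1
  have h2 : Nat.primeCounting ⌊H⌋₊ ≤ ⌊Y⌋₊ := Nat.le_floor h1
  have h3 : (Nat.primeCounting (Nat.primeCounting ⌊H⌋₊) : ℝ) ≤ 4 * Y / Real.log Y := by
    refine le_trans ?_ (pi_up Y hY1)
    exact_mod_cast Nat.monotone_primeCounting h2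
  have h4 : (((Finset.range (⌊H⌋₊ + 1)).filter
      (fun p => p.Prime ∧ (Nat.primeCounting p).Prime)).card : ℝ) ≤
      (Nat.primeCounting (Nat.primeCounting ⌊H⌋₊) : ℝ) := by exact_mod_cast pip_count _
  have hY0 : 0 ≤ Y := by linarith
  have hH0 : 0 ≤ H := by linarith
  have hL20 : 0 < L2 := by linarith
  calc _ ≤ 4 * Y / Real.log Y := h4.trans h3
    _ ≤ 4 * Y / (L2 / 2) := by
        apply div_le_div_of_nonneg_left (by linarith) (by linarith) hlY
    _ = 8 * Y / L2 := by field_simp; ring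
    _ ≤ 8 * (4 * H / L2) / L2 := by
        have : Y ≤ 4 * H / L2 := by
          rw [hY]
          apply div_le_div_of_nonneg_left (by linarith) (by linarith) hH
        gcongr
    _ = 32 * H / L2 ^ 2 := by field_simp; ring

theorem pip_final (hkill : KillStmt 3) (hgr : GreedyStmt) (hpr : ProdStmt) :
    ∃ c : ℝ, 0 < c ∧ ∃ X₀ : ℝ, ∀ X : ℝ, X₀ ≤ X → ∀ M : ℕ, X ≤ M →
    ∃ n : ℕ, (M : ℝ) < 2 * n ∧ (2 * n : ℝ) ≤ M + X ∧
      ∀ p q : ℕ, p.Prime → (Nat.primeCounting p).Prime → q.Prime → p + q = 2 * n →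
        c * (Real.log X * (Real.log (Real.log X)) ^ 3) < p := by
  obtain ⟨c₁, hc₁, X₁, hX₁⟩ := hkill
  obtain ⟨C, hC, hprod⟩ := hpr 1 le_rfl
  obtain ⟨c', hc', X₂, hX₂⟩ := ana 1 le_rfl (c₁ := 1) (C := 1) (y₀ := 10) one_pos one_pos
  obtain ⟨X₃, hX₃⟩ := ev_pow 3
  set c : ℝ := min (1 / 2) (c₁ / (128 * C)) with hc
  have hc0 : 0 < c := lt_min (by norm_num) (by positivity)
  have hc2 : c ≤ 1 / 2 := min_le_left _ _
  have hcc : c ≤ c₁ / (128 * C) := min_le_right _ _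
  have hcC : 128 * c * C ≤ c₁ := by
    rw [le_div_iff₀ (by positivity)] at hcc
    linarith
  obtain ⟨X₄, hX₄⟩ := LG.ev_log (max 2 (1 / c))
  refine ⟨c, hc0, max (max X₁ X₂) (max X₃ X₄), fun X hX M hM => ?_⟩
  obtain ⟨a1, a2, a3, -, -, -, a7, a8, -, a10, -⟩ :=
    hX₂ X (((le_max_right _ _).trans (le_max_left _ _)).trans hX) _ _ rfl rfl _ rfl
  obtain ⟨n1, n2⟩ := hX₃ X (((le_max_left _ _).trans (le_max_right _ _)).trans hX)
  obtain ⟨-, m1, m2, -, -⟩ := hX₄ X (((le_max_right _ _).trans (le_max_right _ _)).trans hX)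
  set y : ℝ := Real.log X / 10 with hy
  set lX : ℝ := Real.log X with hlX
  set L2 : ℝ := Real.log lX with hL2
  have m1' : 2 ≤ lX := (le_max_left _ _).trans m1
  have m2' : 2 ≤ L2 := (le_max_left _ _).trans m2
  have m3' : 1 ≤ c * L2 := by
    have h1 : 1 / c ≤ L2 := (le_max_right _ _).trans m2
    rw [div_le_iff₀ hc0] at h1
    linarith
  have hy0 : 0 ≤ y := by linarith
  have hlX10 : lX = 10 * y := by rw [hy]; ring
  set H : ℝ := c * (lX * L2 ^ 3) with hH
  have hHlX : lX ≤ H := by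
    have h1 : 1 ≤ L2 ^ 2 := one_le_pow₀ (by linarith)
    have h2 : H = lX * ((c * L2) * L2 ^ 2) := by rw [hH]; ring
    rw [h2]
    have h3 : 1 ≤ (c * L2) * L2 ^ 2 := one_le_mul_of_one_le_of_one_le m3' h1
    nlinarith
  have hH1 : 1 < H := by linarith
  have hlH : L2 ≤ Real.log H := Real.log_le_log (by linarith) hHlX
  have hH2 : 2 * H ≤ lX ^ 2 := by
    have h1 : lX * L2 ^ 3 ≤ lX * lX := mul_le_mul_of_nonneg_left n1 (by linarith)
    have h2 : 0 ≤ lX * L2 ^ 3 := by positivity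
    rw [hH]
    nlinarith
  have hH3 : 2 * H ≤ lX ^ 3 := by
    have h1 : lX ^ 2 ≤ lX ^ 3 := pow_le_pow_right₀ (by linarith) (by norm_num)
    linarith
  set PI := (Finset.range (⌊H⌋₊ + 1)).filter (fun p => p.Prime ∧ (Nat.primeCounting p).Prime)
    with hPI
  have hPIc : (PI.card : ℝ) ≤ 32 * H / L2 ^ 2 := pip_bound H L2 hH1 (by linarith) hlH
  set W : Finset ℤ := PI.image (fun p : ℕ => -(p : ℤ)) with hW
  have hWc : (W.card : ℝ) ≤ 32 * H / L2 ^ 2 := by
    refine le_trans ?_ hPIc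
    exact_mod_cast Finset.card_image_le
  have hWabs : ∀ w ∈ W, |(w : ℝ)| ≤ H := by
    intro w hw
    obtain ⟨p, hp, rfl⟩ := Finset.mem_image.1 hw
    have h1 := Finset.mem_range.1 (Finset.mem_filter.1 hp).1
    have h2 : (p : ℝ) ≤ H := (Nat.le_floor_iff (by linarith)).1 (Nat.lt_succ_iff.1 h1)
    push_cast
    rw [abs_neg, abs_of_nonneg (by positivity)]
    exact h2
  set S := (Finset.range (⌊y⌋₊ + 1)).filter (fun p : ℕ => p.Prime ∧ 3 < (p : ℝ) ∧ (p : ℝ) ≤ y)
    with hS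
  have hSmem : ∀ p : ℕ, p ∈ S ↔ p.Prime ∧ 3 < (p : ℝ) ∧ (p : ℝ) ≤ y := by
    intro p
    rw [hS, Finset.mem_filter, Finset.mem_range]
    constructor
    · exact fun h => h.2
    · exact fun h => ⟨Nat.lt_succ_of_le (Nat.le_floor h.2.2), h⟩
  obtain ⟨a, ha⟩ := hgr 1 le_rfl S (fun p hp => ((hSmem p).1 hp).1) W
  have hP := hprod 3 y le_rfl (by linarith) S hSmem
  set U := W.filter (fun m => ∀ p ∈ S, ¬ (p : ℤ) ∣ a p + m ^ 1) with hU
  have hly : L2 / 2 ≤ Real.log y := by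
    have h1 : lX ≤ y ^ 2 := by rw [hlX10]; nlinarith
    have h2 : L2 ≤ Real.log (y ^ 2) := Real.log_le_log (by linarith) h1
    rw [Real.log_pow] at h2
    push_cast at h2
    linarith
  have hlog3 : Real.log 3 ≤ 2 := by
    have := Real.log_le_sub_one_of_pos (show (0:ℝ) < 3 by norm_num)
    linarith
  have hlog30 : 0 ≤ Real.log 3 := Real.log_nonneg (by norm_num)
  have hUc : (U.card : ℝ) ≤ c₁ * lX := by
    have h1 : C * (Real.log 3 / Real.log y) ^ (Nat.divisors 1).card ≤ C * (4 / L2) := by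
      have h2 : (Nat.divisors 1).card = 1 := by rw [Nat.divisors_one, Finset.card_singleton]
      rw [h2, pow_one]
      apply mul_le_mul_of_nonneg_left _ hC.le
      rw [div_le_div_iff₀ (by linarith) (by linarith)]
      nlinarith
    have hprod0 : 0 ≤ ∏ p ∈ S, (1 - (gp 1 p : ℝ) / ((gp 1 p : ℝ) + (p : ℝ) - 1)) := by
      apply Finset.prod_nonneg
      intro p hp
      have h3 := ((hSmem p).1 hp).2.1
      have h4 : (gp 1 p : ℝ) = 1 := by
        have h6 : gp 1 p = 1 := Nat.gcd_one_left _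
        rw [h6, Nat.cast_one]
      rw [h4]
      have h5 : (1:ℝ) / (1 + p - 1) ≤ 1 := by
        rw [div_le_one (by linarith)]
        linarith
      linarith
    have hW0 : (0:ℝ) ≤ W.card := Nat.cast_nonneg _
    calc (U.card : ℝ) ≤ W.card * ∏ p ∈ S, (1 - (gp 1 p : ℝ) / ((gp 1 p : ℝ) + (p : ℝ) - 1)) := ha
      _ ≤ (32 * H / L2 ^ 2) * (C * (4 / L2)) := by
          apply mul_le_mul hWc (hP.trans h1) hprod0 (hW0.trans hWc)
      _ = 128 * c * C * lX := by
          rw [hH]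
          field_simp
          ring
      _ ≤ c₁ * lX := mul_le_mul_of_nonneg_right hcC (by linarith)
  obtain ⟨N₀, hN4, hNp⟩ := crt4 ⌊y⌋₊ a
  set Q : ℕ := 2 * primorial ⌊y⌋₊ with hQ
  have hQ0 : 0 < Q := by
    have := primorial_pos ⌊y⌋₊
    omega
  have hfloor : ∀ p : ℕ, p ≤ ⌊y⌋₊ ↔ (p : ℝ) ≤ y := fun p => Nat.le_floor_iff hy0
  obtain ⟨N, hN1, hN2, hN3, hN5⟩ := hX₁ X (((le_max_left _ _).trans (le_max_left _ _)).trans hX)
    M Q hQ0 (by rw [hQ]; push_cast; exact a7)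
    (by
      intro p hp hpQ
      have h1 : (p : ℝ) ≤ y := by
        rcases (hp.dvd_mul).1 hpQ with h | h
        · have : p ≤ 2 := Nat.le_of_dvd (by norm_num) h
          have h2 : (p : ℝ) ≤ 2 := by exact_mod_cast this
          linarith
        · exact (hfloor p).1 ((hp.dvd_primorial_iff).1 h)
      linarith)
    N₀ U hUc
    (by
      intro u hu u' hu'
      have h1 := hWabs u (Finset.mem_filter.1 hu).1
      have h2 := hWabs u' (Finset.mem_filter.1 hu').1
      rw [Int.cast_sub]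
      have h3 := abs_sub (u : ℝ) (u' : ℝ)
      linarith)
  have hNpos : 0 < N := by
    have h1 : (0 : ℝ) ≤ M := by positivity
    have : (0 : ℝ) < N := by linarith
    exact_mod_cast this
  obtain ⟨N', rfl⟩ := Int.eq_ofNat_of_zero_le hNpos.le
  have hN1' : (M : ℝ) < (N' : ℝ) := by exact_mod_cast hN1
  have hN2' : (N' : ℝ) ≤ M + X := by exact_mod_cast hN2
  have h2prim : 2 ∣ primorial ⌊y⌋₊ := by
    rw [Nat.prime_two.dvd_primorial_iff, hfloor]
    push_cast
    linarith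
  have h4N : (4 : ℤ) ∣ (N' : ℤ) - 2 := by
    have h1 : (4 : ℤ) ∣ (Q : ℤ) := by
      obtain ⟨k, hk⟩ := h2prim
      refine ⟨k, ?_⟩
      rw [hQ, hk]
      push_cast
      ring
    have h2 := dvd_add (h1.trans hN3) hN4
    have h3 : (N' : ℤ) - N₀ + (N₀ - 2) = (N' : ℤ) - 2 := by ring
    rwa [h3] at h2
  obtain ⟨n, hn⟩ : ∃ n : ℕ, N' = 2 * n := ⟨N' / 2, by omega⟩
  have hnr : (N' : ℝ) = 2 * n := by rw [hn]; push_cast; ring
  refine ⟨n, by linarith, by linarith, ?_⟩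
  intro p q hp hpp hq hpq
  by_contra hcon
  push Not at hcon
  have hpPI : p ∈ PI := Finset.mem_filter.2 ⟨Finset.mem_range.2
    (Nat.lt_succ_of_le (Nat.le_floor hcon)), hp, hpp⟩
  have hwW : -(p : ℤ) ∈ W := Finset.mem_image.2 ⟨p, hpPI, rfl⟩
  have key : ∃ r : ℕ, r.Prime ∧ (r : ℝ) ≤ X ^ (1 / 10 : ℝ) ∧ (r : ℤ) ∣ (N' : ℤ) + -(p : ℤ) := by
    by_cases hU' : -(p : ℤ) ∈ U
    · obtain ⟨r, hr, -, hr2, hr3⟩ := hN5 _ hU'
      exact ⟨r, hr, hr2, hr3⟩
    · have h1 : ¬ ∀ r ∈ S, ¬ (r : ℤ) ∣ a r + (-(p : ℤ)) ^ 1 := fun h =>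
        hU' (Finset.mem_filter.2 ⟨hwW, h⟩)
      push Not at h1
      obtain ⟨r, hrS, hrm⟩ := h1
      obtain ⟨hr, hr3, hry⟩ := (hSmem r).1 hrS
      refine ⟨r, hr, hry.trans a10, ?_⟩
      have hr2 : r ≠ 2 := by
        rintro rfl
        norm_num at hr3
      have h2 : (r : ℤ) ∣ (N' : ℤ) - N₀ := by
        refine dvd_trans ?_ hN3
        have h3 : r ∣ Q := (hr.dvd_primorial_iff.2 ((hfloor r).2 hry)).mul_left 2
        exact_mod_cast h3
      have h3 := hNp r hr hr2 ((hfloor r).2 hry)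
      have h4 := dvd_add (dvd_add h2 h3) hrm
      have h5 : (N' : ℤ) - N₀ + (N₀ - a r) + (a r + (-(p : ℤ)) ^ 1) = (N' : ℤ) + -(p : ℤ) := by ring
      rwa [h5] at h4
  obtain ⟨r, hr, hrX, hrd⟩ := key
  have hqe : (N' : ℤ) + -(p : ℤ) = (q : ℤ) := by
    have : (p : ℤ) + q = N' := by rw [hn]; exact_mod_cast hpq
    linarith
  rw [hqe] at hrd
  have hrq : r ∣ q := by exact_mod_cast hrd
  have hrq' : r = q := (Nat.prime_dvd_prime_iff_eq hr hq).1 hrq
  have hqX : (q : ℝ) ≤ X ^ (1 / 10 : ℝ) := by rw [← hrq']; exact hrX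
  have hqr : (p : ℝ) + q = 2 * n := by exact_mod_cast hpq
  set t : ℝ := X ^ (1 / 10 : ℝ) with ht
  have ht10 : 10 ≤ t := a2.trans a10
  have hXt : X = t ^ 10 := by
    rw [ht, ← Real.rpow_natCast, ← Real.rpow_mul (by linarith)]
    norm_num
  have ht9 : (2:ℝ) ≤ t ^ 9 := by
    calc (2:ℝ) ≤ 10 ^ 9 := by norm_num
      _ ≤ t ^ 9 := pow_le_pow_left₀ (by norm_num) ht10 9
  have hX2 : 2 * t ≤ X := by
    rw [hXt, pow_succ]
    nlinarith
  linarith

end Pool.Agent.H307R2.PW
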