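import Pool.Agent.H307R2.PW.Fin

set_option autoImplicit false

/-! # Shifts by even numbers of an arbitrary function of polynomial growth -/

namespace Pool.Agent.H307R2.PW

open Finset Filter Pool.Agent.H256R2.SC

open scoped Classical

theorem shift_final (A : ℕ) (hA : 1 ≤ A) (hkill : KillStmt (2 * A + 1)) (hgr : GreedyStmt)
    (hpr : ProdStmt) :
    ∃ c : ℝ, 0 < c ∧ ∃ X₀ : ℝ, ∀ X : ℝ, X₀ ≤ X → ∀ M : ℕ, X ≤ M → ∀ T : ℕ → ℤ,
    (∀ n : ℕ, |T n| ≤ ((n : ℤ) + 2) ^ A) →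
    ∃ b : ℕ, (M : ℝ) < 2 * b ∧ (2 * b : ℝ) ≤ M + X ∧
      ∀ n : ℕ, (n : ℝ) ≤ c * (Real.log X * Real.log (Real.log X)) →
        ∃ p : ℕ, p.Prime ∧ (p : ℝ) ≤ X ^ (1 / 10 : ℝ) ∧ (p : ℤ) ∣ T n + 2 * b ∧
          (p : ℤ) < T n + 2 * b := by
  obtain ⟨c₁, hc₁, X₁, hX₁⟩ := hkill
  obtain ⟨C, hC, hprod⟩ := hpr 1 le_rfl
  obtain ⟨c', hc', X₂, hX₂⟩ := ana 1 le_rfl (c₁ := 1) (C := 1) (y₀ := 10) one_pos one_pos
  obtain ⟨X₃, hX₃⟩ := ev_pow (2 * A + 1)
  obtain ⟨X₅, hX₅⟩ := ev_pow 1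
  set c : ℝ := min (1 / 4) (c₁ / (8 * C)) with hc
  have hc0 : 0 < c := lt_min (by norm_num) (by positivity)
  have hc2 : c ≤ 1 / 4 := min_le_left _ _
  have hcc : c ≤ c₁ / (8 * C) := min_le_right _ _
  have hcC : 8 * c * C ≤ c₁ := by
    rw [le_div_iff₀ (by positivity)] at hcc
    linarith
  obtain ⟨X₄, hX₄⟩ := LG.ev_log (max 4 (1 / c))
  refine ⟨c, hc0, max (max X₁ X₂) (max X₃ (max X₄ X₅)), fun X hX M hM T hT => ?_⟩
  obtain ⟨a1, a2, a3, -, -, -, a7, -, -, a10, -⟩ :=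
    hX₂ X (((le_max_right _ _).trans (le_max_left _ _)).trans hX) _ _ rfl rfl _ rfl
  obtain ⟨-, n2⟩ := hX₃ X (((le_max_left _ _).trans (le_max_right _ _)).trans hX)
  obtain ⟨-, m1, m2, -, -⟩ := hX₄ X ((((le_max_left _ _).trans (le_max_right _ _)).trans
    (le_max_right _ _)).trans hX)
  obtain ⟨n1, -⟩ := hX₅ X ((((le_max_right _ _).trans (le_max_right _ _)).trans
    (le_max_right _ _)).trans hX)
  rw [pow_one] at n1
  set y : ℝ := Real.log X / 10 with hy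
  set lX : ℝ := Real.log X with hlX
  set L2 : ℝ := Real.log lX with hL2
  have m1' : 4 ≤ lX := (le_max_left _ _).trans m1
  have m2' : 4 ≤ L2 := (le_max_left _ _).trans m2
  have m3' : 1 ≤ c * L2 := by
    have h1 : 1 / c ≤ L2 := (le_max_right _ _).trans m2
    rw [div_le_iff₀ hc0] at h1
    linarith
  have hy0 : 0 ≤ y := by linarith
  have hlX10 : lX = 10 * y := by rw [hy]; ring
  set H : ℝ := c * (lX * L2) with hH
  have hHlX : lX ≤ H := by
    have h2 : H = lX * (c * L2) := by rw [hH]; ring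
    rw [h2]
    nlinarith
  have hH1 : 1 < H := by linarith
  have hH2 : H + 2 ≤ lX ^ 2 / 2 := by
    have h1 : lX * L2 ≤ lX * lX := mul_le_mul_of_nonneg_left n1 (by linarith)
    have h2 : 0 ≤ lX * L2 := by positivity
    have h3 : H ≤ lX * lX / 4 := by rw [hH]; nlinarith
    nlinarith
  have hpowA : 2 * (lX ^ 2 / 2) ^ A ≤ lX ^ (2 * A + 1) := by
    have h1 : (lX ^ 2 / 2) ^ A = lX ^ (2 * A) / 2 ^ A := by rw [div_pow, ← pow_mul]
    have h2 : (2:ℝ) ≤ 2 ^ A := by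
      calc (2:ℝ) = 2 ^ 1 := by norm_num
        _ ≤ 2 ^ A := pow_le_pow_right₀ (by norm_num) hA
    have h3 : 0 ≤ lX ^ (2 * A) := by positivity
    rw [h1, pow_succ]
    have h4 : lX ^ (2 * A) / 2 ^ A ≤ lX ^ (2 * A) / 2 := by
      apply div_le_div_of_nonneg_left h3 (by norm_num) h2
    nlinarith
  have hTb : ∀ n : ℕ, (n : ℝ) ≤ H → |(T n : ℝ)| ≤ (lX ^ 2 / 2) ^ A := by
    intro n hn
    have h1 : ((|T n| : ℤ) : ℝ) ≤ ((((n : ℤ) + 2) ^ A : ℤ) : ℝ) := by exact_mod_cast hT n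
    rw [Int.cast_abs] at h1
    push_cast at h1
    refine h1.trans (pow_le_pow_left₀ (by positivity) (by linarith) A)
  set W : Finset ℤ := (Finset.range (⌊H⌋₊ + 1)).image T with hW
  have hWc : (W.card : ℝ) ≤ 2 * H := by
    have h1 : W.card ≤ ⌊H⌋₊ + 1 := by
      refine Finset.card_image_le.trans ?_
      rw [Finset.card_range]
    have h2 : (W.card : ℝ) ≤ (⌊H⌋₊ : ℝ) + 1 := by exact_mod_cast h1
    have h3 := Nat.floor_le (show 0 ≤ H by linarith)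
    linarith
  have hWabs : ∀ w ∈ W, |(w : ℝ)| ≤ (lX ^ 2 / 2) ^ A := by
    intro w hw
    obtain ⟨n, hn, rfl⟩ := Finset.mem_image.1 hw
    have h1 := Finset.mem_range.1 hn
    exact hTb n ((Nat.le_floor_iff (by linarith)).1 (Nat.lt_succ_iff.1 h1))
  set S := (Finset.range (⌊y⌋₊ + 1)).filter (fun p : ℕ => p.Prime ∧ 3 < (p : ℝ) ∧ (p : ℝ) ≤ y)
    with hS
  have hSmem : ∀ p : ℕ, p ∈ S ↔ p.Prime ∧ 3 < (p : ℝ) ∧ (p : ℝ) ≤ y := by
    intro p
    rw [hS, Finset.mem_filter, Finset.mem_range]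
    constructor
    · exact fun h => h.2
    · exact fun h => ⟨Nat.lt_succ_of_le (Nat.le_floor h.2.2), h⟩
  obtain ⟨a, ha⟩ := hgr 1 le_rfl S (fun p hp => ((hSmem p).1 hp).1) W
  have hP := hprod 3 y le_rfl (by linarith) S hSmem
  set U := W.filter (fun m => ∀ p ∈ S, ¬ (p : ℤ) ∣ a p + m ^ 1) with hU
  have hly : L2 / 2 ≤ Real.log y := by
    have h1 : lX ≤ y ^ 2 := by rw [hlX10]; nlinarith
    have h2 : L2 ≤ Real.log (y ^ 2) := Real.log_le_log (by linarith) h1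
    rw [Real.log_pow] at h2
    push_cast at h2
    linarith
  have hlog3 : Real.log 3 ≤ 2 := by
    have := Real.log_le_sub_one_of_pos (show (0:ℝ) < 3 by norm_num)
    linarith
  have hlog30 : 0 ≤ Real.log 3 := Real.log_nonneg (by norm_num)
  have hUc : (U.card : ℝ) ≤ c₁ * lX := by
    have h1 : C * (Real.log 3 / Real.log y) ^ (Nat.divisors 1).card ≤ C * (4 / L2) := by
      have h2 : (Nat.divisors 1).card = 1 := by rw [Nat.divisors_one, Finset.card_singleton]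
      rw [h2, pow_one]
      apply mul_le_mul_of_nonneg_left _ hC.le
      rw [div_le_div_iff₀ (by linarith) (by linarith)]
      nlinarith
    have hprod0 : 0 ≤ ∏ p ∈ S, (1 - (gp 1 p : ℝ) / ((gp 1 p : ℝ) + (p : ℝ) - 1)) := by
      apply Finset.prod_nonneg
      intro p hp
      have h3 := ((hSmem p).1 hp).2.1
      have h4 : (gp 1 p : ℝ) = 1 := by
        have h6 : gp 1 p = 1 := Nat.gcd_one_left _
        rw [h6, Nat.cast_one]
      rw [h4]
      have h5 : (1:ℝ) / (1 + p - 1) ≤ 1 := by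
        rw [div_le_one (by linarith)]
        linarith
      linarith
    have hW0 : (0:ℝ) ≤ W.card := Nat.cast_nonneg _
    calc (U.card : ℝ) ≤ W.card * ∏ p ∈ S, (1 - (gp 1 p : ℝ) / ((gp 1 p : ℝ) + (p : ℝ) - 1)) := ha
      _ ≤ (2 * H) * (C * (4 / L2)) := by
          apply mul_le_mul hWc (hP.trans h1) hprod0 (hW0.trans hWc)
      _ = 8 * c * C * lX := by
          rw [hH]
          field_simp
          ring
      _ ≤ c₁ * lX := mul_le_mul_of_nonneg_right hcC (by linarith)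
  obtain ⟨N₀, hN4, hNp⟩ := crt4 ⌊y⌋₊ a
  set Q : ℕ := 2 * primorial ⌊y⌋₊ with hQ
  have hQ0 : 0 < Q := by
    have := primorial_pos ⌊y⌋₊
    omega
  have hfloor : ∀ p : ℕ, p ≤ ⌊y⌋₊ ↔ (p : ℝ) ≤ y := fun p => Nat.le_floor_iff hy0
  obtain ⟨N, hN1, hN2, hN3, hN5⟩ := hX₁ X (((le_max_left _ _).trans (le_max_left _ _)).trans hX)
    M Q hQ0 (by rw [hQ]; push_cast; exact a7)
    (by
      intro p hp hpQ
      have h1 : (p : ℝ) ≤ y := by
        rcases (hp.dvd_mul).1 hpQ with h | h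
        · have : p ≤ 2 := Nat.le_of_dvd (by norm_num) h
          have h2 : (p : ℝ) ≤ 2 := by exact_mod_cast this
          linarith
        · exact (hfloor p).1 ((hp.dvd_primorial_iff).1 h)
      have h3 : lX ≤ lX ^ (2 * A + 1) := by
        calc lX = lX ^ 1 := (pow_one _).symm
          _ ≤ lX ^ (2 * A + 1) := pow_le_pow_right₀ (by linarith) (by omega)
      linarith)
    N₀ U hUc
    (by
      intro u hu u' hu'
      have h1 := hWabs u (Finset.mem_filter.1 hu).1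
      have h2 := hWabs u' (Finset.mem_filter.1 hu').1
      rw [Int.cast_sub]
      have h3 := abs_sub (u : ℝ) (u' : ℝ)
      linarith)
  have hNpos : 0 < N := by
    have h1 : (0 : ℝ) ≤ M := by positivity
    have : (0 : ℝ) < N := by linarith
    exact_mod_cast this
  obtain ⟨N', rfl⟩ := Int.eq_ofNat_of_zero_le hNpos.le
  have hN1' : (M : ℝ) < (N' : ℝ) := by exact_mod_cast hN1
  have hN2' : (N' : ℝ) ≤ M + X := by exact_mod_cast hN2
  have h2prim : 2 ∣ primorial ⌊y⌋₊ := by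
    rw [Nat.prime_two.dvd_primorial_iff, hfloor]
    push_cast
    linarith
  have h4N : (4 : ℤ) ∣ (N' : ℤ) - 2 := by
    have h1 : (4 : ℤ) ∣ (Q : ℤ) := by
      obtain ⟨k, hk⟩ := h2prim
      refine ⟨k, ?_⟩
      rw [hQ, hk]
      push_cast
      ring
    have h2 := dvd_add (h1.trans hN3) hN4
    have h3 : (N' : ℤ) - N₀ + (N₀ - 2) = (N' : ℤ) - 2 := by ring
    rwa [h3] at h2
  obtain ⟨b, hb⟩ : ∃ b : ℕ, N' = 2 * b := ⟨N' / 2, by omega⟩
  have hnr : (N' : ℝ) = 2 * b := by rw [hb]; push_cast; ring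
  refine ⟨b, by linarith, by linarith, ?_⟩
  intro n hn
  have hTn := hTb n hn
  have hwW : T n ∈ W := Finset.mem_image.2 ⟨n, Finset.mem_range.2
    (Nat.lt_succ_of_le (Nat.le_floor hn)), rfl⟩
  have key : ∃ r : ℕ, r.Prime ∧ (r : ℝ) ≤ X ^ (1 / 10 : ℝ) ∧ (r : ℤ) ∣ (N' : ℤ) + T n := by
    by_cases hU' : T n ∈ U
    · obtain ⟨r, hr, -, hr2, hr3⟩ := hN5 _ hU'
      exact ⟨r, hr, hr2, hr3⟩
    · have h1 : ¬ ∀ r ∈ S, ¬ (r : ℤ) ∣ a r + (T n) ^ 1 := fun h =>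
        hU' (Finset.mem_filter.2 ⟨hwW, h⟩)
      push Not at h1
      obtain ⟨r, hrS, hrm⟩ := h1
      obtain ⟨hr, hr3, hry⟩ := (hSmem r).1 hrS
      refine ⟨r, hr, hry.trans a10, ?_⟩
      have hr2 : r ≠ 2 := by
        rintro rfl
        norm_num at hr3
      have h2 : (r : ℤ) ∣ (N' : ℤ) - N₀ := by
        refine dvd_trans ?_ hN3
        have h3 : r ∣ Q := (hr.dvd_primorial_iff.2 ((hfloor r).2 hry)).mul_left 2
        exact_mod_cast h3
      have h3 := hNp r hr hr2 ((hfloor r).2 hry)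
      have h4 := dvd_add (dvd_add h2 h3) hrm
      have h5 : (N' : ℤ) - N₀ + (N₀ - a r) + (a r + (T n) ^ 1) = (N' : ℤ) + T n := by ring
      rwa [h5] at h4
  obtain ⟨r, hr, hrX, hrd⟩ := key
  have he : (N' : ℤ) + T n = T n + 2 * b := by rw [hb]; push_cast; ring
  rw [he] at hrd
  refine ⟨r, hr, hrX, hrd, ?_⟩
  set t : ℝ := X ^ (1 / 10 : ℝ) with ht
  have ht10 : 10 ≤ t := a2.trans a10
  have hXt : X = t ^ 10 := by
    rw [ht, ← Real.rpow_natCast, ← Real.rpow_mul (by linarith)]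
    norm_num
  have ht9 : (2:ℝ) ≤ t ^ 9 := by
    calc (2:ℝ) ≤ 10 ^ 9 := by norm_num
      _ ≤ t ^ 9 := pow_le_pow_left₀ (by norm_num) ht10 9
  have hX2 : 2 * t ≤ X := by
    rw [hXt, pow_succ]
    nlinarith
  have h1 := (abs_le.1 hTn).1
  have h2 : ((r : ℤ) : ℝ) < ((T n + 2 * b : ℤ) : ℝ) := by
    push_cast
    have h3 : 0 ≤ (lX ^ 2 / 2) ^ A := by positivity
    linarith
  exact_mod_cast h2

end Pool.Agent.H307R2.PW
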