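import Mathlib
import Pool.Agent.H398R2.RK.Surv
import Pool.Agent.H307R2.PW.Defs

set_option autoImplicit false

/-! # Task T4: Rankin's choice of residue classes for the powers

Adapted from `Pool.Agent.H398R2.RK.Surv2` (helper398). -/

namespace Pool.Agent.H307R2.PW

open Finset Filter Pool.Agent.H318R2.Cr Pool.Agent.H398R2.RK

open scoped Classical

theorem ev_t4 (k : ℝ) (hk : 1 ≤ k) : ∃ t₀ : ℝ, ∀ t : ℝ, t₀ ≤ t → 1 ≤ t ∧ 1 ≤ Real.log t ∧
    10 * k * t ^ 2 ≤ Real.exp t ∧ 100 ≤ Real.exp t ∧ Real.log t ≤ t ∧ 100 ≤ k * t := by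
  have h := ((eventually_ge_atTop (100 : ℝ)).and
    (Real.tendsto_log_atTop.eventually_ge_atTop 1)).and (eventually_ge_atTop (60 * k : ℝ))
  obtain ⟨t₀, ht⟩ := eventually_atTop.1 h
  refine ⟨t₀, fun t h0 => ?_⟩
  obtain ⟨⟨h1, h2⟩, h4⟩ := ht t h0
  have h5 := Real.add_one_le_exp t
  have h6 : t ^ 3 / 6 ≤ Real.exp t := by
    have h7 := Real.pow_div_factorial_le_exp t (by linarith) 3
    norm_num [Nat.factorial] at h7
    linarith
  have h8 : Real.log t ≤ t - 1 := Real.log_le_sub_one_of_pos (by linarith)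
  refine ⟨by linarith, h2, ?_, by linarith, by linarith, by nlinarith⟩
  refine le_trans ?_ h6
  have : 60 * k * t ^ 2 ≤ t * t ^ 2 := by gcongr
  nlinarith

theorem t4 (h2 : GreedyStmt) (h3 : ProdStmt) : SurvStmt := by
  intro d hd
  obtain ⟨C3, hC3, hprod⟩ := h3 d hd
  obtain ⟨τ, hτ⟩ : ∃ τ : ℕ, τ = d.divisors.card := ⟨_, rfl⟩
  rw [← hτ] at hprod ⊢
  obtain ⟨y₁, hsm⟩ := smooth_count
  obtain ⟨k, hkdef⟩ : ∃ k : ℝ, k = ((τ + 2 : ℕ) : ℝ) := ⟨_, rfl⟩
  have hk1 : 1 ≤ k := by rw [hkdef]; exact_mod_cast (by omega : 1 ≤ τ + 2)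
  have hk0 : 0 < k := by linarith
  obtain ⟨t₀, hev⟩ := ev_t4 k hk1
  refine ⟨22 * C3 * (10 * k) ^ τ, by positivity, max y₁ (Real.exp (Real.exp t₀)), fun y hy L hyL hLy => ?_⟩
  have hsm' := hsm y ((le_max_left _ _).trans hy) L hyL
  have hy' := (le_max_right _ _).trans hy
  have hy0 : 0 < y := (Real.exp_pos _).trans_le hy'
  have hL1' : Real.exp t₀ ≤ Real.log y := by
    rw [← Real.log_exp (Real.exp t₀)]; exact Real.log_le_log (Real.exp_pos _) hy'
  have hly : 0 < Real.log y := (Real.exp_pos _).trans_le hL1'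
  set t := Real.log (Real.log y) with ht
  have htt : t₀ ≤ t := by
    rw [← Real.log_exp t₀]; exact Real.log_le_log (Real.exp_pos _) hL1'
  obtain ⟨h1, h2', h3', h4, h5, h6⟩ := hev t htt
  have hLe : Real.log y = Real.exp t := by rw [ht, Real.exp_log hly]
  have hye : y = Real.exp (Real.exp t) := by rw [← hLe, Real.exp_log hy0]
  set V0 := Real.log y * Real.log t / (10 * t) with hV0
  have ht0 : 0 < t := by linarith
  have hlt0 : 0 < Real.log t := by linarith
  have hkt0 : 0 < k * t := by positivity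
  have hV1 : k * t ≤ V0 := by
    rw [hV0, le_div_iff₀ (by positivity), hLe]
    have := Real.exp_pos t
    nlinarith
  have hV1le : V0 ≤ Real.log y := by
    rw [hV0, div_le_iff₀ (by positivity), hLe]
    nlinarith [Real.exp_pos t]
  have hV0pos : 0 < V0 := by linarith
  set v₀ : ℝ := (Real.log y) ^ (τ + 2) with hv₀
  have hv₀e : v₀ = Real.exp (k * t) := by
    rw [hv₀, hLe, ← Real.exp_nat_mul, hkdef]
  have hv₀0 : 0 < v₀ := by positivity
  have hv₀big : 100 ≤ v₀ := by
    rw [hv₀e]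
    have := Real.add_one_le_exp (k * t)
    linarith
  have hv₀v : v₀ ≤ Real.exp V0 := by rw [hv₀e]; exact Real.exp_le_exp.2 hV1
  have hvy : Real.exp V0 ≤ y := by
    calc Real.exp V0 ≤ Real.exp (Real.log y) := Real.exp_le_exp.2 hV1le
      _ = y := Real.exp_log hy0
  have hv₀y : v₀ ≤ y := hv₀v.trans hvy
  -- the primes for the greedy step
  set S : Finset ℕ := (Icc 1 ⌊Real.exp V0⌋₊).filter (fun p : ℕ => p.Prime ∧ v₀ < (p : ℝ)) with hS
  have hSmem : ∀ p : ℕ, p ∈ S ↔ p.Prime ∧ v₀ < (p : ℝ) ∧ (p : ℝ) ≤ Real.exp V0 := by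
    intro p
    rw [hS, mem_filter, mem_Icc, Nat.le_floor_iff (Real.exp_pos _).le]
    constructor
    · rintro ⟨⟨_, h⟩, h', h''⟩; exact ⟨h', h'', h⟩
    · rintro ⟨h, h', h''⟩; exact ⟨⟨h.pos, h''⟩, h, h'⟩
  have hprodS := hprod v₀ (Real.exp V0) (by linarith) hv₀v S hSmem
  have hlogv : Real.log (Real.exp V0) = V0 := Real.log_exp _
  have hlogv₀ : Real.log v₀ = k * t := by rw [hv₀e, Real.log_exp]
  rw [hlogv, hlogv₀] at hprodS
  -- R
  set R := (Icc (-(L : ℤ)) (L : ℤ)).filter (fun m => ∀ p : ℕ, p.Prime → (p : ℝ) ≤ y → p ∉ S →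
    ¬ (p : ℤ) ∣ m) with hR
  obtain ⟨b, hbc⟩ := h2 d hd S (fun p hp => ((hSmem p).1 hp).1) R
  have h2S : 2 ∉ S := by
    intro h
    have := ((hSmem 2).1 h).2.1
    push_cast at this
    linarith
  have h2y : ((2 : ℕ) : ℝ) ≤ y := by push_cast; linarith
  refine ⟨fun p => if p ∈ S then b p else 0, if_neg h2S, ?_⟩
  have hsub1 : (Finset.Icc (-(L : ℤ)) (L : ℤ)).filter (fun m => ∀ p : ℕ, p.Prime → (p : ℝ) ≤ y →
      ¬ (p : ℤ) ∣ (if p ∈ S then b p else 0) + m ^ d) ⊆
      R.filter (fun m => ∀ p ∈ S, ¬ (p : ℤ) ∣ b p + m ^ d) := by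
    intro m hm
    rw [mem_filter] at hm
    rw [mem_filter, hR, mem_filter]
    refine ⟨⟨hm.1, fun p hp hpy hpS hdvd => ?_⟩, fun p hpS => ?_⟩
    · have := hm.2 p hp hpy
      rw [if_neg hpS, zero_add] at this
      exact this (dvd_pow hdvd (by omega))
    · have h7 := (hSmem p).1 hpS
      have := hm.2 p h7.1 (h7.2.2.trans hvy)
      rwa [if_pos hpS] at this
  refine (Nat.cast_le.2 (card_le_card hsub1)).trans (hbc.trans ?_)
  -- size of R
  have hL2 : 2 ≤ L := by
    have : (2 : ℝ) ≤ L := by linarith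
    exact_mod_cast this
  have hL0 : (0 : ℝ) < L := by linarith
  set T : Finset ℕ := ((Icc 1 L).filter Nat.Prime) ∪ (Finset.Icc 1 L).filter
    (fun m => ∀ p : ℕ, p.Prime → p ∣ m → Real.log p ≤ V0) with hT
  have hRsub : R ⊆ T.image (fun n : ℕ => (n : ℤ)) ∪ T.image (fun n : ℕ => -(n : ℤ)) := by
    intro m hm
    rw [hR, mem_filter, mem_Icc] at hm
    obtain ⟨⟨hm1, hm2⟩, hm3⟩ := hm
    set n : ℕ := m.natAbs with hn
    have hnL : n ≤ L := by omega
    have hdv : ∀ p : ℕ, p ∣ n → (p : ℤ) ∣ m := fun p hp => Int.natCast_dvd.2 hp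
    have hn0 : n ≠ 0 := by
      intro h0
      exact hm3 2 Nat.prime_two h2y h2S (hdv 2 (by rw [h0]; exact dvd_zero _))
    have hn1 : 1 ≤ n := by omega
    have hfac : ∀ p : ℕ, p.Prime → p ∣ n → (y < p ∨ p ∈ S) := by
      intro p hp hd'
      by_contra hcon
      push Not at hcon
      exact hm3 p hp hcon.1 hcon.2 (hdv p hd')
    have hnT : n ∈ T := by
      rw [hT, mem_union]
      by_cases hall : ∀ p : ℕ, p.Prime → p ∣ n → Real.log p ≤ V0
      · right
        rw [mem_filter, mem_Icc]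
        exact ⟨⟨hn1, hnL⟩, hall⟩
      · left
        push Not at hall
        obtain ⟨p, hp, hd', hlp⟩ := hall
        have hp0 : (0 : ℝ) < p := by exact_mod_cast hp.pos
        have hpy : y < p := by
          rcases hfac p hp hd' with h | h
          · exact h
          · exfalso
            have h7 := ((hSmem p).1 h).2.2
            have h8 := Real.log_le_log hp0 h7
            rw [hlogv] at h8
            linarith
        obtain ⟨m', hm'⟩ := hd'
        have hm'1 : m' = 1 := by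
          by_contra hne
          have hm'0 : m' ≠ 0 := by rintro rfl; omega
          obtain ⟨q, hq, hqd⟩ := Nat.exists_prime_and_dvd hne
          have hqle : q ≤ m' := Nat.le_of_dvd (Nat.pos_of_ne_zero hm'0) hqd
          have hm'le : (m' : ℝ) < v₀ := by
            have h7 : (p : ℝ) * m' ≤ L := by exact_mod_cast (by omega : p * m' ≤ L)
            have h8 : (0 : ℝ) < m' := by exact_mod_cast Nat.pos_of_ne_zero hm'0
            have h9 : y * m' < y * v₀ := by
              calc y * m' < p * m' := by gcongr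
                _ ≤ L := h7
                _ ≤ _ := hLy
            exact lt_of_mul_lt_mul_left h9 hy0.le
          have hqv : (q : ℝ) < v₀ := lt_of_le_of_lt (by exact_mod_cast hqle) hm'le
          rcases hfac q hq (by rw [hm']; exact hqd.mul_left p) with h | h
          · linarith
          · have := ((hSmem q).1 h).2.1; linarith
        rw [hm'1, mul_one] at hm'
        rw [mem_filter, mem_Icc]
        exact ⟨⟨hn1, hnL⟩, hm' ▸ hp⟩
    rw [mem_union, mem_image, mem_image]
    rcases le_total 0 m with h | h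
    · left; exact ⟨n, hnT, by omega⟩
    · right; exact ⟨n, hnT, by omega⟩
  have hTcard : (T.card : ℝ) ≤ 11 * L / Real.log y := by
    have h7 : T.card ≤ ((Icc 1 L).filter Nat.Prime).card + ((Finset.Icc 1 L).filter (fun m => ∀ p : ℕ, p.Prime → p ∣ m →
      Real.log p ≤ V0)).card := card_union_le _ _
    have h8 : (T.card : ℝ) ≤ (((Icc 1 L).filter Nat.Prime).card : ℝ) + (((Finset.Icc 1 L).filter (fun m => ∀ p : ℕ, p.Prime → p ∣ m →
      Real.log p ≤ V0)).card : ℝ) := by exact_mod_cast h7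
    have h9 := primes_le L hL2
    have h10 : 10 * (L : ℝ) / Real.log L ≤ 10 * L / Real.log y := by
      apply div_le_div_of_nonneg_left (by positivity) hly
      exact Real.log_le_log hy0 hyL
    have h11 : (L : ℝ) / (Real.log y) ^ 3 ≤ L / Real.log y := by
      apply div_le_div_of_nonneg_left hL0.le hly
      rw [hLe]
      nlinarith [sq_nonneg (Real.exp t)]
    have h12 : 11 * (L : ℝ) / Real.log y = 10 * L / Real.log y + L / Real.log y := by ring
    linarith
  have hRcard : (R.card : ℝ) ≤ 22 * L / Real.log y := by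
    have h7 : R.card ≤ T.card + T.card := (card_le_card hRsub).trans
      ((card_union_le _ _).trans (add_le_add card_image_le card_image_le))
    have h8 : (R.card : ℝ) ≤ T.card + T.card := by exact_mod_cast h7
    have h9 : 22 * (L : ℝ) / Real.log y = 11 * L / Real.log y + 11 * L / Real.log y := by ring
    linarith
  have hkV : 0 ≤ k * t / V0 := by positivity
  calc (R.card : ℝ) * ∏ p ∈ S, (1 - (gp d p : ℝ) / ((gp d p : ℝ) + (p : ℝ) - 1))
      ≤ R.card * (C3 * (k * t / V0) ^ τ) := mul_le_mul_of_nonneg_left hprodS (Nat.cast_nonneg _)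
    _ ≤ (22 * L / Real.log y) * (C3 * (k * t / V0) ^ τ) :=
        mul_le_mul_of_nonneg_right hRcard (mul_nonneg hC3.le (pow_nonneg hkV τ))
    _ = _ := by
        have e1 : k * t / V0 = (10 * k) * t ^ 2 / (Real.log y * Real.log t) := by
          rw [hV0]
          field_simp
          try ring
        rw [e1, div_pow, mul_pow (10 * k) (t ^ 2) τ, mul_pow (Real.log y) (Real.log t) τ,
          ← pow_mul, pow_succ (Real.log y) τ]
        field_simp

end Pool.Agent.H307R2.PW
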