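import Pool.Agent.H256R2.SC.G1
import Pool.Agent.H307R2.PW.Defs

set_option autoImplicit false

/-! # Killing a small set of shifts in a prescribed residue class and a prescribed interval -/

namespace Pool.Agent.H307R2.PW

open Finset Pool.Agent.H256R2.SC

open scoped Classical

theorem t5 (A : ℕ) (hcov : CovA A) : KillStmt A := by
  obtain ⟨c, hc, X₁, hX₁⟩ := hcov
  refine ⟨c, hc, max X₁ (2 ^ 10), ?_⟩
  intro X hX M Q hQ0 hQX hQp N₀ U hU hdiff
  have hXX₁ : X₁ ≤ X := (le_max_left _ _).trans hX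
  have hX2 : (2 : ℝ) ^ 10 ≤ X := (le_max_right _ _).trans hX
  have hX0 : 0 < X := lt_of_lt_of_le (by norm_num) hX2
  have hX10 : (2 : ℝ) ≤ X ^ (1 / 10 : ℝ) := by
    have h1 : ((2 : ℝ) ^ 10) ^ (1 / 10 : ℝ) ≤ X ^ (1 / 10 : ℝ) :=
      Real.rpow_le_rpow (by norm_num) hX2 (by norm_num)
    have h2 : ((2 : ℝ) ^ 10) ^ (1 / 10 : ℝ) = 2 := by
      rw [← Real.rpow_natCast, ← Real.rpow_mul (by norm_num)]
      norm_num
    linarith
  have hQr : (0 : ℝ) < Q := by exact_mod_cast hQ0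
  have hndvd : ∀ p : ℕ, p.Prime → (Real.log X) ^ A < p → ¬ p ∣ Q := by
    intro p hp hp1 h
    have := hQp p hp h
    linarith
  have hinv : ∀ p : ℕ, ∃ i : ℤ, p.Prime → ¬ p ∣ Q → (p : ℤ) ∣ Q * i - 1 := by
    intro p
    by_cases h : p.Prime ∧ ¬ p ∣ Q
    · obtain ⟨i, hi⟩ := LG.inv_exists h.1 h.2
      exact ⟨i, fun _ _ => hi⟩
    · exact ⟨0, fun h1 h2 => absurd ⟨h1, h2⟩ h⟩
  choose ip hip using hinv
  set a : ℝ := ((M : ℝ) - N₀) / Q with ha
  set b : ℝ := ((M : ℝ) + X - N₀) / Q with hb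
  have hab : b - a = X / Q := by rw [ha, hb]; field_simp; ring
  have hablt : a ≤ b := by
    have : 0 ≤ X / Q := by positivity
    linarith
  have hN : X ^ (1 / 2 : ℝ) ≤ X / Q := by
    rw [le_div_iff₀ hQr]
    calc X ^ (1 / 2 : ℝ) * Q ≤ X ^ (1 / 2 : ℝ) * X ^ (1 / 2 : ℝ) := by gcongr
      _ = X := by
        rw [← Real.rpow_add hX0]
        norm_num
  obtain ⟨x, hx, hm⟩ := hX₁ X hXX₁ U (by simpa using hU)
    (fun p u => -(N₀ + (u : ℤ)) * ip p) (by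
      intro p hp hp1 _ k l hkl hdvd
      have h1 := hip p hp (hndvd p hp hp1)
      have h2 : (p : ℤ) ∣ (l : ℤ) - (k : ℤ) := by
        have h3 : (p : ℤ) ∣ (Q : ℤ) * (-(N₀ + (k : ℤ)) * ip p - -(N₀ + (l : ℤ)) * ip p) :=
          hdvd.mul_left _
        have h4 : (p : ℤ) ∣ ((l : ℤ) - (k : ℤ)) * ((Q : ℤ) * ip p - 1) := h1.mul_left _
        have h5 := dvd_sub h3 h4
        have h6 : (Q : ℤ) * (-(N₀ + (k : ℤ)) * ip p - -(N₀ + (l : ℤ)) * ip p) -
            ((l : ℤ) - (k : ℤ)) * ((Q : ℤ) * ip p - 1) = (l : ℤ) - (k : ℤ) := by ring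
        rwa [h6] at h5
      have h7 : (l : ℤ) - (k : ℤ) = 0 := by
        apply Int.eq_zero_of_abs_lt_dvd h2
        have h8 := hdiff l l.2 k k.2
        have h9 : |(((l : ℤ) - (k : ℤ) : ℤ) : ℝ)| < (p : ℝ) := lt_of_le_of_lt h8 hp1
        have h10 : ((|((l : ℤ) - (k : ℤ))| : ℤ) : ℝ) < ((p : ℤ) : ℝ) := by
          rw [Int.cast_abs]
          exact_mod_cast h9
        exact_mod_cast h10
      exact hkl (Subtype.ext (by omega)))
    (Ioc ⌊a⌋ ⌊b⌋) (X / Q) 2 hN (by norm_num) hX10 (by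
      intro q hq _ _ r
      have hq0 : 0 < q := Nat.pos_of_ne_zero hq.ne_zero
      have hq1 : (1 : ℝ) ≤ q := by exact_mod_cast hq0
      have h1 := LG.count_Ioc ⌊a⌋ ⌊b⌋ (Int.floor_le_floor hablt) q hq0 r
      have e1 := Int.floor_le a
      have e2 := Int.lt_floor_add_one a
      have e3 := Int.floor_le b
      have e4 := Int.lt_floor_add_one b
      have h2 : |((⌊b⌋ : ℝ) - ⌊a⌋) / q - X / Q / q| ≤ 1 := by
        rw [← sub_div, abs_div, abs_of_pos (by linarith : (0 : ℝ) < q), div_le_one (by linarith)]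
        refine le_trans ?_ hq1
        rw [← hab, abs_le]
        constructor <;> linarith
      calc _ = |((((Ioc ⌊a⌋ ⌊b⌋).filter (fun x => (q : ℤ) ∣ x - r)).card : ℕ) : ℝ) -
              ((⌊b⌋ : ℝ) - ⌊a⌋) / q + (((⌊b⌋ : ℝ) - ⌊a⌋) / q - X / Q / q)| := by
            congr 1
            ring
        _ ≤ _ := abs_add_le _ _
        _ ≤ 2 := by linarith)
  rw [mem_Ioc] at hx
  have hx1 : a < x := by
    have := Int.lt_floor_add_one a
    have h2 : (⌊a⌋ : ℝ) + 1 ≤ x := by exact_mod_cast hx.1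
    linarith
  have hx2 : (x : ℝ) ≤ b := by
    have := Int.floor_le b
    have h2 : (x : ℝ) ≤ (⌊b⌋ : ℝ) := by exact_mod_cast hx.2
    linarith
  refine ⟨N₀ + Q * x, ?_, ?_, ⟨x, by ring⟩, ?_⟩
  · rw [ha, div_lt_iff₀ hQr] at hx1
    push_cast
    linarith
  · rw [hb, le_div_iff₀ hQr] at hx2
    push_cast
    linarith
  · intro u hu
    obtain ⟨p, hp, hp1, hp2, hp3⟩ := hm ⟨u, hu⟩
    refine ⟨p, hp, hp1, hp2, ?_⟩
    have h1 := hip p hp (hndvd p hp hp1)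
    have h3 := hp3.mul_left (Q : ℤ)
    have h4 := h1.mul_left (N₀ + u)
    have h5 := dvd_sub h3 h4
    have h6 : (Q : ℤ) * (x - -(N₀ + u) * ip p) - (N₀ + u) * ((Q : ℤ) * ip p - 1) =
        N₀ + Q * x + u := by ring
    rwa [h6] at h5

end Pool.Agent.H307R2.PW
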