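import Pool.Agent.H256R2.SC.G1

set_option autoImplicit false

/-! # Analysis for the power shifts -/

namespace Pool.Agent.H307R2.PW

open Finset Filter Pool.Agent.H256R2.SC

open scoped Classical

/-- the length of the range of `m` -/
noncomputable def FF (d : ℕ) (X : ℝ) : ℝ :=
  Real.log X * (Real.log (Real.log X)) ^ (d.divisors.card + 1) *
    (Real.log (Real.log (Real.log (Real.log X)))) ^ (d.divisors.card) /
    (Real.log (Real.log (Real.log X))) ^ (2 * d.divisors.card)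

theorem ev_pow (k : ℕ) : ∃ X₀ : ℝ, ∀ X : ℝ, X₀ ≤ X →
    (Real.log (Real.log X)) ^ k ≤ Real.log X ∧ (Real.log X) ^ k ≤ X / 4 := by
  have h1 : ∀ᶠ t : ℝ in atTop, (Real.log t) ^ k ≤ t / 4 ∧ 1 ≤ t := by
    have e := (Real.isLittleO_pow_log_id_atTop (n := k)).def (show (0:ℝ) < 1 / 4 by norm_num)
    filter_upwards [e, eventually_ge_atTop (1:ℝ)] with t ht ht1
    refine ⟨?_, ht1⟩
    rw [Real.norm_eq_abs, Real.norm_eq_abs] at ht
    simp only [id] at ht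
    rw [abs_of_nonneg (show (0:ℝ) ≤ t by linarith)] at ht
    have := le_abs_self ((Real.log t) ^ k)
    linarith
  have h2 := Real.tendsto_log_atTop.eventually h1
  obtain ⟨X₀, hX⟩ := eventually_atTop.1 (h1.and h2)
  refine ⟨X₀, fun X hXX => ?_⟩
  obtain ⟨⟨a1, a2⟩, b1, b2⟩ := hX X hXX
  exact ⟨by linarith, a1⟩

theorem ana (d : ℕ) (hd : 1 ≤ d) {c₁ C y₀ : ℝ} (hc₁ : 0 < c₁) (hC : 0 < C) :
    ∃ c : ℝ, 0 < c ∧ ∃ X₀ : ℝ, ∀ X : ℝ, X₀ ≤ X → ∀ y F : ℝ, y = Real.log X / 10 →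
    F = c * FF d X → ∀ L : ℕ, L = ⌊F⌋₊ →
    1 ≤ X ∧ y₀ ≤ y ∧ 2 ≤ y ∧ y ≤ L ∧ (L : ℝ) ≤ y * (Real.log y) ^ (d.divisors.card + 2) ∧
      C * L * (Real.log (Real.log y)) ^ (2 * d.divisors.card) /
        ((Real.log y) ^ (d.divisors.card + 1) *
          (Real.log (Real.log (Real.log y))) ^ (d.divisors.card)) ≤ c₁ * Real.log X ∧
      2 * (primorial ⌊y⌋₊ : ℝ) ≤ X ^ (1 / 2 : ℝ) ∧ y ≤ (Real.log X) ^ (2 * d + 1) ∧
      2 * (L : ℝ) ^ d ≤ (Real.log X) ^ (2 * d + 1) ∧ y ≤ X ^ (1 / 10 : ℝ) ∧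
      (L : ℝ) ^ d + X ^ (1 / 10 : ℝ) < X := by
  set τ : ℕ := d.divisors.card with hτ
  have hτ1 : 1 ≤ τ := by
    rw [hτ]
    exact Finset.card_pos.2 ⟨1, Nat.one_mem_divisors.2 (by omega)⟩
  refine ⟨c₁ / (C * 2 ^ (2 * τ + 1)), by positivity, ?_⟩
  set c : ℝ := c₁ / (C * 2 ^ (2 * τ + 1)) with hc
  have hc0 : 0 < c := by positivity
  obtain ⟨X₀, hX₀⟩ := LG.ev_log (max (max 100 (10 * 2 ^ (τ + 2) * c)) (max (10 * y₀) (2 * 4 ^ τ / c)))
  obtain ⟨X₁, hX₁⟩ := ev_pow (τ + 2)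
  obtain ⟨X₂, hX₂⟩ := ev_pow (2 * d)
  refine ⟨max X₀ (max X₁ X₂), fun X hX y F hy hF L hL => ?_⟩
  obtain ⟨hX1, m1, m2, m3, m4⟩ := hX₀ X ((le_max_left _ _).trans hX)
  obtain ⟨n1, -⟩ := hX₁ X (((le_max_left _ _).trans (le_max_right _ _)).trans hX)
  obtain ⟨-, n2⟩ := hX₂ X (((le_max_right _ _).trans (le_max_right _ _)).trans hX)
  set M : ℝ := max (max 100 (10 * 2 ^ (τ + 2) * c)) (max (10 * y₀) (2 * 4 ^ τ / c)) with hM
  have M1 : 100 ≤ M := (le_max_left _ _).trans (le_max_left _ _)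
  have M2 : 10 * 2 ^ (τ + 2) * c ≤ M := (le_max_right _ _).trans (le_max_left _ _)
  have M3 : 10 * y₀ ≤ M := (le_max_left _ _).trans (le_max_right _ _)
  have M4 : 2 * 4 ^ τ / c ≤ M := (le_max_right _ _).trans (le_max_right _ _)
  set l1 := Real.log X with hl1
  set l2 := Real.log l1 with hl2
  set l3 := Real.log l2 with hl3
  set l4 := Real.log l3 with hl4
  have p1 : 0 < l1 := by linarith
  have p2 : 0 < l2 := by linarith
  have p3 : 0 < l3 := by linarith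
  have p4 : 0 < l4 := by linarith
  have hlog10 := LG.log10_lt
  have hXpos : 0 < X := by linarith
  have hXexp : X = Real.exp l1 := (Real.exp_log hXpos).symm
  have y1 : l2 / 2 ≤ Real.log y := LG.half_log (by rw [hy]) (by linarith) p1
  have y2 : l3 / 2 ≤ Real.log (Real.log y) := by
    apply LG.half_log _ (by linarith) p2
    linarith
  have y3 : l4 / 2 ≤ Real.log (Real.log (Real.log y)) := by
    apply LG.half_log _ (by linarith) p3
    linarith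
  have hypos : 0 < y := by rw [hy]; positivity
  have hlogy : 0 < Real.log y := by linarith
  have hloglogy : 0 < Real.log (Real.log y) := by linarith
  have hylog : Real.log y ≤ l2 := by
    apply Real.log_le_log hypos
    rw [hy]
    linarith
  have y2' : Real.log (Real.log y) ≤ l3 := Real.log_le_log hlogy hylog
  have hff : FF d X = l1 * l2 ^ (τ + 1) * l4 ^ τ / l3 ^ (2 * τ) := rfl
  have q1 : l3 ^ 2 ≤ 4 * l2 := LG.log_sq_le (by linarith)
  have q3 : l4 ≤ l3 := by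
    have := Real.log_le_sub_one_of_pos p3
    linarith
  have hF0 : 0 ≤ F := by
    rw [hF, hff]
    positivity
  have hLF : (L : ℝ) ≤ F := by
    rw [hL]
    exact Nat.floor_le hF0
  have hFL : F - 1 ≤ L := by
    rw [hL]
    have := Nat.lt_floor_add_one F
    linarith
  -- lower bound for F
  have F1 : 2 * l1 ≤ F := by
    rw [hF, hff]
    have h1 : l3 ^ (2 * τ) ≤ 4 ^ τ * l2 ^ τ := by
      rw [pow_mul, ← mul_pow]
      exact pow_le_pow_left₀ (by positivity) q1 τ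
    have h2 : l1 * l2 ^ (τ + 1) * l4 ^ τ / (4 ^ τ * l2 ^ τ) ≤
        l1 * l2 ^ (τ + 1) * l4 ^ τ / l3 ^ (2 * τ) := by
      apply div_le_div_of_nonneg_left (by positivity) (by positivity) h1
    have h3 : l1 * l2 ^ (τ + 1) * l4 ^ τ / (4 ^ τ * l2 ^ τ) = l1 * l2 * l4 ^ τ / 4 ^ τ := by
      rw [pow_succ]
      field_simp
    have h4 : 2 * 4 ^ τ ≤ c * l2 := by
      rw [div_le_iff₀ hc0] at M4
      have : M * c ≤ l2 * c := by gcongr
      linarith
    have h5 : (1:ℝ) ≤ l4 ^ τ := one_le_pow₀ (by linarith)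
    calc 2 * l1 = l1 * (2 * 4 ^ τ) / 4 ^ τ := by field_simp
      _ ≤ l1 * (c * l2) / 4 ^ τ := by gcongr
      _ = c * (l1 * l2 * 1 / 4 ^ τ) := by ring
      _ ≤ c * (l1 * l2 * l4 ^ τ / 4 ^ τ) := by gcongr
      _ ≤ c * (l1 * l2 ^ (τ + 1) * l4 ^ τ / l3 ^ (2 * τ)) := by
        rw [← h3]
        gcongr
  -- upper bound for F
  have F2 : F ≤ c * (l1 * l2 ^ (τ + 1)) := by
    rw [hF, hff]
    have h1 : l4 ^ τ / l3 ^ (2 * τ) ≤ 1 := by
      rw [div_le_one (by positivity), pow_mul]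
      apply pow_le_pow_left₀ p4.le
      nlinarith
    calc c * (l1 * l2 ^ (τ + 1) * l4 ^ τ / l3 ^ (2 * τ)) =
        c * (l1 * l2 ^ (τ + 1)) * (l4 ^ τ / l3 ^ (2 * τ)) := by ring
      _ ≤ c * (l1 * l2 ^ (τ + 1)) * 1 := by gcongr
      _ = _ := by ring
  have F3 : F ≤ l1 / 10 * (l2 / 2) ^ (τ + 2) := by
    refine F2.trans ?_
    have h1 : 10 * 2 ^ (τ + 2) * c ≤ l2 := M2.trans m2
    have h2 : l1 / 10 * (l2 / 2) ^ (τ + 2) = (l1 * l2 ^ (τ + 1)) * (l2 / (10 * 2 ^ (τ + 2))) := by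
      rw [div_pow, pow_succ l2 (τ + 1)]
      field_simp
    rw [h2, mul_comm c]
    have h3 : c ≤ l2 / (10 * 2 ^ (τ + 2)) := by
      rw [le_div_iff₀ (by positivity)]
      linarith
    gcongr
  have F4 : F ≤ l1 ^ 2 := by
    refine F3.trans ?_
    have h1 : (l2 / 2) ^ (τ + 2) ≤ l2 ^ (τ + 2) := by
      apply pow_le_pow_left₀ (by positivity)
      linarith
    have h2 : (l2 / 2) ^ (τ + 2) ≤ l1 := h1.trans n1
    calc l1 / 10 * (l2 / 2) ^ (τ + 2) ≤ l1 / 10 * l1 := by gcongr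
      _ ≤ l1 ^ 2 := by nlinarith
  have hLd : (L : ℝ) ^ d ≤ l1 ^ (2 * d) := by
    rw [pow_mul]
    exact pow_le_pow_left₀ (Nat.cast_nonneg _) (hLF.trans F4) d
  have hroot : ∀ a : ℝ, X ^ a = Real.exp (l1 * a) := fun a => Real.rpow_def_of_pos hXpos a
  have hP : (primorial ⌊y⌋₊ : ℝ) ≤ Real.exp (l1 / 5) := by
    have h1 : (primorial ⌊y⌋₊ : ℝ) ≤ 4 ^ ⌊y⌋₊ := by exact_mod_cast primorial_le_four_pow _
    refine h1.trans ?_
    have h2 : (4 : ℝ) ≤ Real.exp 2 := by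
      have := Real.add_one_le_exp (1 : ℝ)
      calc (4 : ℝ) = 2 * 2 := by norm_num
        _ ≤ Real.exp 1 * Real.exp 1 := by gcongr <;> linarith
        _ = Real.exp 2 := by rw [← Real.exp_add]; norm_num
    calc (4 : ℝ) ^ ⌊y⌋₊ ≤ (Real.exp 2) ^ ⌊y⌋₊ := by gcongr
      _ = Real.exp (⌊y⌋₊ * 2) := by rw [← Real.exp_nat_mul]
      _ ≤ Real.exp (l1 / 5) := by
        apply Real.exp_le_exp.2
        have := Nat.floor_le hypos.le
        linarith
  have e2 : (4 : ℝ) ≤ Real.exp 2 := by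
    have := Real.add_one_le_exp (1 : ℝ)
    calc (4 : ℝ) = 2 * 2 := by norm_num
      _ ≤ Real.exp 1 * Real.exp 1 := by gcongr <;> linarith
      _ = Real.exp 2 := by rw [← Real.exp_add]; norm_num
  have hexp4 : ∀ a b : ℝ, a + 2 ≤ b → 4 * Real.exp a ≤ Real.exp b := by
    intro a b hab
    calc 4 * Real.exp a ≤ Real.exp 2 * Real.exp a := by gcongr
      _ = Real.exp (2 + a) := by rw [← Real.exp_add]
      _ ≤ Real.exp b := Real.exp_le_exp.2 (by linarith)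
  refine ⟨hX1, ?_, ?_, ?_, ?_, ?_, ?_, ?_, ?_, ?_, ?_⟩
  · rw [hy]
    linarith
  · rw [hy]
    linarith
  · rw [hy]
    linarith
  · refine hLF.trans (F3.trans ?_)
    rw [hy]
    gcongr
    rw [← hy]
    exact y1
  · have h1 : C * L * (Real.log (Real.log y)) ^ (2 * τ) /
        ((Real.log y) ^ (τ + 1) * (Real.log (Real.log (Real.log y))) ^ τ) ≤
        C * F * l3 ^ (2 * τ) / ((l2 / 2) ^ (τ + 1) * (l4 / 2) ^ τ) := by
      gcongr
    refine h1.trans (le_of_eq ?_)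
    rw [hF, hff]
    have h2 : C * (c * (l1 * l2 ^ (τ + 1) * l4 ^ τ / l3 ^ (2 * τ))) * l3 ^ (2 * τ) /
        ((l2 / 2) ^ (τ + 1) * (l4 / 2) ^ τ) = C * c * l1 * 2 ^ (2 * τ + 1) := by
      rw [div_pow, div_pow, show 2 * τ + 1 = (τ + 1) + τ by ring, pow_add (2:ℝ) (τ + 1) τ]
      field_simp
    rw [h2, hc]
    field_simp
  · calc 2 * (primorial ⌊y⌋₊ : ℝ) ≤ 4 * Real.exp (l1 / 5) := by
          have := Real.exp_pos (l1 / 5)
          linarith
      _ ≤ Real.exp (l1 * (1 / 2)) := hexp4 _ _ (by linarith)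
      _ = X ^ (1 / 2 : ℝ) := (hroot _).symm
  · have h1 : l1 ≤ l1 ^ (2 * d + 1) := le_self_pow₀ (by linarith) (by omega)
    rw [hy]
    linarith
  · calc 2 * (L : ℝ) ^ d ≤ l1 * l1 ^ (2 * d) := by
          apply mul_le_mul (by linarith) hLd (by positivity) p1.le
      _ = l1 ^ (2 * d + 1) := by rw [pow_succ]; ring
  · rw [hroot, hy]
    have := Real.add_one_le_exp (l1 * (1 / 10))
    linarith
  · have h1 := hexp4 (l1 * (1 / 10)) l1 (by linarith)
    rw [← hXexp, ← hroot] at h1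
    linarith

end Pool.Agent.H307R2.PW
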